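
set_option autoImplicit false

namespace Pool.Agent.HJF

/-- the four points of index `b + j U + (3 - j) D` do not all have the same colour (or `U = D = 0`) -/
def leaf (N b U D : Nat) : Bool :=
  Nat.beq (U + D) 0 ||
    !((N.testBit (b + 3 * D) == N.testBit (b + U + 2 * D)) &&
      (N.testBit (b + U + 2 * D) == N.testBit (b + 2 * U + D)) &&
      (N.testBit (b + 2 * U + D) == N.testBit (b + 3 * U)))

/-- all geometric lines of `[4]^k`, shifted, are not monochromatic -/
def chk (N : Nat) : Nat → Nat → Nat → Nat → Bool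
  | 0, b, U, D => leaf N b U D
  | k + 1, b, U, D =>
    chk N k b U D && chk N k (b + 4 ^ k) U D && chk N k (b + 2 * 4 ^ k) U D &&
      chk N k (b + 3 * 4 ^ k) U D && chk N k b (U + 4 ^ k) D && chk N k b U (D + 4 ^ k)

/-- the colour changes under the reversal of the index -/
def anti (N d : Nat) : Bool :=
  (List.range (4 ^ d)).all fun i => N.testBit (4 ^ d - 1 - i) == !N.testBit i

def N1 : Nat := 0xc

def N2 : Nat := 0x217b

def N3 : Nat := 0x37e57628eb915813

def N4 : Nat := 0xeaa1a3653e56147d7b7437d4ae81848b2ede7e8ad413d12141d79583593a7aa8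

def N5 : Nat := 0x8a5ebe1d487285a8ad2a83b5db5454b55d252a4b34aaa4bae7e85c32a33dea5e32d545ad5aaeba42d71254da34dc48ebdaa2a4d5ad43455b4529ba53355aa1bd427aa55335a26b5d255d3d4a54dabaa428edc4d3a4d5b714bda28aa54a5d54b385a8433ab3c5e818a2daaad32dab5b4552d5d524523eab4aea5eb1ed478285ae

def N6 : Nat := 0x22871482d12118dbeb8287dcd41746b321e2242bbbd241e41718488b411be177eb8287dcd41746b3dd78eb7d2edee72468e7b774bee41e8821e2242bbbd241e421e2242bbbd241e4e8e7b774bee41e88ee97d882d11a38e9d87db4222bdbb87b1718488b411be17721e2242bbbd241e4d87db4222bdbb87b1178277d2eede717eb8287dcd41746b3dd78eb7d2edee724e8e7b774bee41e8821e2242bbbd241e4dd78eb7d2edee724847478222be82841de1ddbd4442dbe1b68e3a774bee4168868e7b774bee41e88de1ddbd4442dbe1b27824bddd4244784ee87d882d11218e821e2242bbbd241e468e3a774bee41688ee87d882d11218e9d87db4222bdbb87b21e2242bbbd241e468e7b774bee41e88ee97d882d11a38e9d87db4222bdbb87be8e7b774bee41e88de1ddbd4442dbe1b27824bddd4244784ee87d882d11218e9ee97d882d11a38e927824bddd42447847debe82bbbe1d1dedb18848b4128e144d87db4222bdbb87bee87d882d11218e8db18848b4128e144329d17d4c41ebe281718488b411be17721e2242bbbd241e4d87db4222bdbb87b1178277d2eede71721e2242bbbd241e468e3a774bee41688ee87d882d11218e8d87db4222bdbb87bd87db4222bdbb87bee87d882d11218e9db18848b4128e144329d17d4c41ebe281178277d2eede717d87db4222bdbb87b329d17d4c41ebe2824e77b74bed71ebb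

theorem chk1 : chk N1 1 0 0 0 = true := by decide +kernel

theorem anti1 : anti N1 1 = true := by decide +kernel

theorem chk2 : chk N2 2 0 0 0 = true := by decide +kernel

theorem anti2 : anti N2 2 = true := by decide +kernel

theorem chk3 : chk N3 3 0 0 0 = true := by decide +kernel

theorem anti3 : anti N3 3 = true := by decide +kernel

theorem chk4 : chk N4 4 0 0 0 = true := by decide +kernel

theorem anti4 : anti N4 4 = true := by decide +kernel

theorem chk5 : chk N5 5 0 0 0 = true := by decide +kernel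

theorem anti5 : anti N5 5 = true := by decide +kernel

theorem chk6 : chk N6 6 0 0 0 = true := by decide +kernel

theorem anti6 : anti N6 6 = true := by decide +kernel

end Pool.Agent.HJF
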