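import Pool.Agent.HJF.Data
import Pool.Agent.Results.MP_62b8ba_co.HalvingInterlace

set_option autoImplicit false

namespace Pool.Agent.HJF

open Finset Pool.Agent.Results.MP_62b8ba_co.HalvingInterlace

/-- the data of a coordinate of a geometric line: constant `a`, increasing, or decreasing -/
def Ok (a u e : ℕ) : Prop :=
  (a < 4 ∧ u = 0 ∧ e = 0) ∨ (a = 0 ∧ u = 1 ∧ e = 0) ∨ (a = 0 ∧ u = 0 ∧ e = 1)

theorem chk_spec (N : ℕ) : ∀ (k b U D : ℕ), chk N k b U D = true → ∀ a u e : ℕ → ℕ,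
    (∀ i < k, Ok (a i) (u i) (e i)) →
    leaf N (b + ∑ i ∈ range k, a i * 4 ^ i) (U + ∑ i ∈ range k, u i * 4 ^ i)
      (D + ∑ i ∈ range k, e i * 4 ^ i) = true := by
  intro k
  induction k with
  | zero =>
    intro b U D h a u e _
    simpa [chk] using h
  | succ k ih =>
    intro b U D h a u e hOk
    have hc : chk N k (b + a k * 4 ^ k) (U + u k * 4 ^ k) (D + e k * 4 ^ k) = true := by
      simp only [chk, Bool.and_eq_true] at h
      obtain ⟨⟨⟨⟨⟨h0, h1⟩, h2⟩, h3⟩, h4⟩, h5⟩ := h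
      rcases hOk k (Nat.lt_succ_self k) with ⟨ha, hu, he⟩ | ⟨ha, hu, he⟩ | ⟨ha, hu, he⟩
      · rw [hu, he]
        interval_cases a k
        · simpa using h0
        · simpa using h1
        · simpa using h2
        · simpa using h3
      · rw [ha, hu, he]
        simpa using h4
      · rw [ha, hu, he]
        simpa using h5
    have h := ih _ _ _ hc a u e (fun i hi => hOk i (Nat.lt_succ_of_lt hi))
    rw [Finset.sum_range_succ, Finset.sum_range_succ, Finset.sum_range_succ]
    have e1 : ∀ x y z : ℕ, x + (y + z) = x + z + y := fun x y z => by ring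
    rw [e1, e1, e1]
    exact h

/-- the index of a point -/
def idx {d : ℕ} (x : Fin d → Fin 4) : ℕ := ∑ i : Fin d, (x i : ℕ) * 4 ^ (i : ℕ)

/-- the colouring given by the binary digits of `N` -/
def col (N : ℕ) {d : ℕ} (x : Fin d → Fin 4) : Bool := N.testBit (idx x)

theorem geom (d : ℕ) : ∑ i : Fin d, 3 * 4 ^ (i : ℕ) + 1 = 4 ^ d := by
  rw [Fin.sum_univ_eq_sum_range (fun i => 3 * 4 ^ i) d]
  induction d with
  | zero => simp
  | succ d ih =>
    rw [Finset.sum_range_succ, pow_succ]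
    omega

theorem idx_rev {d : ℕ} (x : Fin d → Fin 4) : idx (fun i => (x i).rev) + idx x + 1 = 4 ^ d := by
  rw [← geom d]
  unfold idx
  rw [← Finset.sum_add_distrib]
  congr 1
  apply Finset.sum_congr rfl
  intro i _
  have h1 : ((x i).rev : ℕ) + (x i : ℕ) = 3 := by
    rw [Fin.val_rev]
    have := (x i).isLt
    omega
  rw [← add_mul, h1]

theorem halving {d N : ℕ} (h : anti N d = true) : IsHalving (col N : (Fin d → Fin 4) → Bool) := by
  apply halving_of_abs
  have hS : Pool.HJI.S (col N : (Fin d → Fin 4) → Bool) = 0 := by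
    apply Pool.HJI.S_anti (Equiv.ofBijective (fun (x : Fin d → Fin 4) i => (x i).rev)
      (Function.Involutive.bijective (fun x => by funext i; simp)))
    intro x
    unfold anti at h
    rw [List.all_eq_true] at h
    have h1 := idx_rev x
    have h2 := h (idx x) (List.mem_range.2 (by omega))
    rw [beq_iff_eq] at h2
    show N.testBit (idx (fun i => (x i).rev)) = !N.testBit (idx x)
    rw [← h2]
    congr 1
    omega
  rw [hS]
  simp

theorem proper {d N : ℕ} (h : chk N d 0 0 0 = true) :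
    ¬ HasMono (col N : (Fin d → Fin 4) → Bool) := by
  rintro ⟨P, ⟨hP, i0, j0, j1, hne⟩, b, hb⟩
  have hex : ∀ i : Fin d, ∃ a u e : ℕ, Ok a u e ∧ ∀ j : Fin 4,
      (P j i : ℕ) = a + u * (j : ℕ) + e * (3 - (j : ℕ)) := by
    intro i
    rcases hP i with h1 | h1 | h1
    · exact ⟨P 0 i, 0, 0, Or.inl ⟨(P 0 i).isLt, rfl, rfl⟩, fun j => by rw [h1 j 0]; ring⟩
    · exact ⟨0, 1, 0, Or.inr (Or.inl ⟨rfl, rfl, rfl⟩), fun j => by rw [h1 j]; ring⟩
    · refine ⟨0, 0, 1, Or.inr (Or.inr ⟨rfl, rfl, rfl⟩), fun j => ?_⟩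
      rw [h1 j, Fin.val_rev]
      have := j.isLt
      omega
  choose a u e hOk hval using hex
  have hspec := chk_spec N d 0 0 0 h (fun i => if hi : i < d then a ⟨i, hi⟩ else 0)
    (fun i => if hi : i < d then u ⟨i, hi⟩ else 0) (fun i => if hi : i < d then e ⟨i, hi⟩ else 0)
    (fun i hi => by simpa [hi] using hOk ⟨i, hi⟩)
  have hsum : ∀ f : Fin d → ℕ,
      ∑ i ∈ range d, (if hi : i < d then f ⟨i, hi⟩ else 0) * 4 ^ i =
        ∑ i : Fin d, f i * 4 ^ (i : ℕ) := by
    intro f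
    rw [← Fin.sum_univ_eq_sum_range (fun i => (if hi : i < d then f ⟨i, hi⟩ else 0) * 4 ^ i) d]
    apply Finset.sum_congr rfl
    intro i _
    simp
  rw [hsum, hsum, hsum, zero_add, zero_add, zero_add] at hspec
  set A := ∑ i : Fin d, a i * 4 ^ (i : ℕ) with hA
  set U := ∑ i : Fin d, u i * 4 ^ (i : ℕ) with hU
  set E := ∑ i : Fin d, e i * 4 ^ (i : ℕ) with hE
  have hidx : ∀ j : Fin 4, idx (P j) = A + (j : ℕ) * U + (3 - (j : ℕ)) * E := by
    intro j
    unfold idx
    rw [hA, hU, hE, Finset.mul_sum, Finset.mul_sum, ← Finset.sum_add_distrib,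
      ← Finset.sum_add_distrib]
    apply Finset.sum_congr rfl
    intro i _
    rw [hval i j]
    ring
  have hpos : U + E ≠ 0 := by
    intro h0
    apply hne
    have hu : u i0 * 4 ^ (i0 : ℕ) ≤ U :=
      Finset.single_le_sum (f := fun i : Fin d => u i * 4 ^ (i : ℕ)) (fun _ _ => Nat.zero_le _)
        (Finset.mem_univ i0)
    have he : e i0 * 4 ^ (i0 : ℕ) ≤ E :=
      Finset.single_le_sum (f := fun i : Fin d => e i * 4 ^ (i : ℕ)) (fun _ _ => Nat.zero_le _)
        (Finset.mem_univ i0)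
    have h4 : 0 < 4 ^ (i0 : ℕ) := by positivity
    have hu0 : u i0 = 0 := by
      rcases Nat.eq_zero_or_pos (u i0) with h | h
      · exact h
      · have := Nat.mul_pos h h4
        omega
    have he0 : e i0 = 0 := by
      rcases Nat.eq_zero_or_pos (e i0) with h | h
      · exact h
      · have := Nat.mul_pos h h4
        omega
    apply Fin.ext
    rw [hval i0 j0, hval i0 j1, hu0, he0]
    ring
  have hc : ∀ j : Fin 4, N.testBit (A + (j : ℕ) * U + (3 - (j : ℕ)) * E) = b := by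
    intro j
    rw [← hidx j]
    exact hb j
  have c0 := hc 0
  have c1 := hc 1
  have c2 := hc 2
  have c3 := hc 3
  have t0 : A + ((0 : Fin 4) : ℕ) * U + (3 - ((0 : Fin 4) : ℕ)) * E = A + 3 * E := by
    simp
  have t1 : A + ((1 : Fin 4) : ℕ) * U + (3 - ((1 : Fin 4) : ℕ)) * E = A + U + 2 * E := by
    simp
  have t2 : A + ((2 : Fin 4) : ℕ) * U + (3 - ((2 : Fin 4) : ℕ)) * E = A + 2 * U + E := by
    simp
  have t3 : A + ((3 : Fin 4) : ℕ) * U + (3 - ((3 : Fin 4) : ℕ)) * E = A + 3 * U := by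
    simp
  rw [t0] at c0
  rw [t1] at c1
  rw [t2] at c2
  rw [t3] at c3
  unfold leaf at hspec
  rw [c0, c1, c2, c3] at hspec
  have hb0 : Nat.beq (U + E) 0 = false := by
    rcases hbe : Nat.beq (U + E) 0 with _ | _
    · rfl
    · exact absurd (Nat.eq_of_beq_eq_true hbe) hpos
  rw [hb0] at hspec
  simp at hspec

theorem not_mem {d N : ℕ} (h : chk N d 0 0 0 = true) (h' : anti N d = true) :
    d ∉ HJHalfSet 4 := fun hd => proper h (hd.2 _ (halving h'))

end Pool.Agent.HJF
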